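import Pool.Agent.Helper75.FU.StP

set_option autoImplicit false

/-! Module N2 of project FU (MP_b1e6de): the induction step over a local ring. -/

namespace Pool.Agent.Helper68.FU

open Polynomial
open Pool.Agent.Helper75.FU Pool.Agent.Helper91.GU

universe u

private theorem mp_row {A B : Type u} [CommRing A] [CommRing B] (φ : A →+* B) (r : ℕ) :
    mp φ (row (1 : A) (0 : Fin r → A)) = row 1 0 := by
  funext j
  rcases j with j | j
  · simp [mp, row]
  · simp [mp, row]

private theorem row_eta {A : Type u} {r : ℕ} (v : Unit ⊕ Fin r → A) :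
    row (v (Sum.inl ())) (fun i => v (Sum.inr i)) = v := by
  funext j
  rcases j with j | j
  · rfl
  · rfl

private theorem mp_mp {n : Type} {A B C : Type u} [CommRing A] [CommRing B] [CommRing C]
    (φ : A →+* B) (ψ : B →+* C) (v : n → A) : mp ψ (mp φ v) = mp (ψ.comp φ) v := rfl

section
variable (R : Type u) [CommRing R] (n : ℕ) (RR : Type u) [CommRing RR] [Algebra R[X] RR]

/-- `C[X] → R(X)[X_1, .., X_n]` -/
private noncomputable def phi1 : (MvPolynomial (Fin n) R)[X] →+* MvPolynomial (Fin n) RR :=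
  Polynomial.eval₂RingHom
    (MvPolynomial.map ((algebraMap R[X] RR).comp (Polynomial.C : R →+* R[X])))
    (MvPolynomial.C (algebraMap R[X] RR X))

private theorem phi1c :
    (MvPolynomial.constantCoeff : MvPolynomial (Fin n) RR →+* RR).comp (phi1 R n RR) =
      (algebraMap R[X] RR).comp (Polynomial.mapRingHom
        (MvPolynomial.constantCoeff : MvPolynomial (Fin n) R →+* R)) := by
  apply Polynomial.ringHom_ext'
  · apply MvPolynomial.ringHom_ext
    · intro r
      simp only [RingHom.comp_apply, phi1, Polynomial.coe_eval₂RingHom, Polynomial.eval₂_C,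
        MvPolynomial.map_C, MvPolynomial.constantCoeff_C, Polynomial.coe_mapRingHom,
        Polynomial.map_C]
    · intro i
      simp only [RingHom.comp_apply, phi1, Polynomial.coe_eval₂RingHom, Polynomial.eval₂_C,
        MvPolynomial.map_X, MvPolynomial.constantCoeff_X, Polynomial.coe_mapRingHom,
        Polynomial.map_C, map_zero]
  · simp only [RingHom.comp_apply, phi1, Polynomial.coe_eval₂RingHom, Polynomial.eval₂_X,
        MvPolynomial.constantCoeff_C, Polynomial.coe_mapRingHom, Polynomial.map_X]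

private theorem mon_le :
    monS R ≤ (monS (MvPolynomial (Fin n) R)).comap
      (Polynomial.mapRingHom (MvPolynomial.C : R →+* MvPolynomial (Fin n) R)) := by
  intro p hp
  have hp' : p.Monic := hp
  exact hp'.map (MvPolynomial.C : R →+* MvPolynomial (Fin n) R)

variable (RC : Type u) [CommRing RC] [Algebra (MvPolynomial (Fin n) R)[X] RC]

private theorem ex_phi2 [IsLocalization (monS R) RR]
    [IsLocalization (monS (MvPolynomial (Fin n) R)) RC] :
    ∃ f2 : MvPolynomial (Fin n) RR →+* RC,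
      f2.comp (phi1 R n RR) = algebraMap (MvPolynomial (Fin n) R)[X] RC := by
  let psi : RR →+* RC := IsLocalization.map RC
    (Polynomial.mapRingHom (MvPolynomial.C : R →+* MvPolynomial (Fin n) R)) (mon_le R n)
  have hpsi : ∀ p : R[X], psi (algebraMap R[X] RR p) =
      algebraMap (MvPolynomial (Fin n) R)[X] RC
        (Polynomial.map (MvPolynomial.C : R →+* MvPolynomial (Fin n) R) p) := by
    intro p
    change IsLocalization.map RC _ (mon_le R n) (algebraMap R[X] RR p) = _
    rw [IsLocalization.map_eq]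
    rfl
  refine ⟨MvPolynomial.eval₂Hom psi (fun i => algebraMap (MvPolynomial (Fin n) R)[X] RC
    (Polynomial.C (MvPolynomial.X i))), ?_⟩
  apply Polynomial.ringHom_ext'
  · apply MvPolynomial.ringHom_ext
    · intro r
      simp only [RingHom.comp_apply, phi1, Polynomial.coe_eval₂RingHom, Polynomial.eval₂_C,
        MvPolynomial.map_C, MvPolynomial.eval₂Hom_C, hpsi, Polynomial.map_C]
    · intro i
      simp only [RingHom.comp_apply, phi1, Polynomial.coe_eval₂RingHom, Polynomial.eval₂_C,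
        MvPolynomial.map_X, MvPolynomial.eval₂Hom_X']
  · simp only [RingHom.comp_apply, phi1, Polynomial.coe_eval₂RingHom, Polynomial.eval₂_X,
        MvPolynomial.eval₂Hom_C, hpsi, Polynomial.map_X]

end

private theorem core (hB7 : Pool.Agent.Helper91.GU.StB7.{u}) (m : ℕ)
    {A1 M1 RXR RXC R C : Type u} [CommRing A1] [CommRing M1] [CommRing RXR] [CommRing RXC]
    [CommRing R] [CommRing C]
    (ef : A1 →+* C[X]) (eb : C[X] →+* A1) (heb : ∀ x, eb (ef x) = x)
    (f1 : C[X] →+* M1) (cc1 : M1 →+* RXR) (C1 : RXR →+* M1) (tR : R[X] →+* RXR)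
    (f2 : M1 →+* RXC) (tC : C[X] →+* RXC) (ccm : C[X] →+* R[X]) (cc : C →+* R) (CC : R →+* C)
    (h21 : f2.comp f1 = tC) (h1c : cc1.comp f1 = tR.comp ccm)
    (hPN1 : ∀ v : Unit ⊕ Fin m → M1, Um v → REq v (fun j => C1 (cc1 (v j))))
    (hS : ∀ v : Unit ⊕ Fin m → R[X], Um v → REq v (row 1 0))
    (hP7 : ∀ w : Unit ⊕ Fin m → C[X], Um w → REq (mp tC w) (row 1 0) →
      REq w (fun j => Polynomial.C ((w j).eval 0)))
    (hPN : ∀ w : Unit ⊕ Fin m → C, Um w → REq w (fun j => CC (cc (w j))))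
    (hH4 : ∀ w : Unit ⊕ Fin m → R, Um w → REq w (row 1 0)) :
    ∀ v : Unit ⊕ Fin m → A1, Um v → REq v (row 1 0) := by
  intro v hv
  have tr : ∀ (A : Type u) [CommRing A] (v w x : Unit ⊕ Fin m → A),
      REq v w → REq w x → REq v x := fun A _ => ((hB7 A A (RingHom.id A)).1 _).2.2.1
  have im : ∀ (A B : Type u) [CommRing A] [CommRing B] (φ : A →+* B)
      (v w : Unit ⊕ Fin m → A), REq v w → REq (mp φ v) (mp φ w) :=
    fun A B _ _ φ => ((hB7 A B φ).1 _).2.2.2.2.2.1
  have um : ∀ (A B : Type u) [CommRing A] [CommRing B] (φ : A →+* B)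
      (v : Unit ⊕ Fin m → A), Um v → Um (mp φ v) :=
    fun A B _ _ φ => ((hB7 A B φ).1 _).2.2.2.2.2.2
  obtain ⟨w, hwd⟩ : ∃ w : Unit ⊕ Fin m → C[X], w = mp ef v := ⟨_, rfl⟩
  have hw : Um w := by rw [hwd]; exact um _ _ ef v hv
  have hvw : mp eb w = v := by
    funext j
    rw [hwd]
    exact heb (v j)
  obtain ⟨v1, hv1d⟩ : ∃ v1 : Unit ⊕ Fin m → M1, v1 = mp f1 w := ⟨_, rfl⟩
  have hv1 : Um v1 := by rw [hv1d]; exact um _ _ f1 w hw
  have h1 := hPN1 v1 hv1
  obtain ⟨w0, hw0d⟩ : ∃ w0 : Unit ⊕ Fin m → R[X], w0 = mp ccm w := ⟨_, rfl⟩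
  have hw0 : Um w0 := by rw [hw0d]; exact um _ _ ccm w hw
  have hw0' : REq w0 (row 1 0) := hS w0 hw0
  have h2 : REq v1 (row 1 0) := by
    refine tr _ _ _ _ h1 ?_
    have h3 := im _ _ (C1.comp tR) w0 (row 1 0) hw0'
    rw [mp_row] at h3
    have h4 : mp (C1.comp tR) w0 = fun j => C1 (cc1 (v1 j)) := by
      funext j
      rw [hw0d, hv1d]
      change C1 (tR (ccm (w j))) = C1 (cc1 (f1 (w j)))
      congr 1
      exact (DFunLike.congr_fun h1c (w j)).symm
    rw [h4] at h3
    exact h3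
  have h5 : REq (mp tC w) (row 1 0) := by
    have h6 := im _ _ f2 v1 (row 1 0) h2
    rw [mp_row] at h6
    have h7 : mp f2 v1 = mp tC w := by
      rw [hv1d, mp_mp, h21]
    rwa [h7] at h6
  have h8 := hP7 w hw h5
  obtain ⟨w', hw'd⟩ : ∃ w' : Unit ⊕ Fin m → C, w' = mp (Polynomial.evalRingHom (0 : C)) w :=
    ⟨_, rfl⟩
  have hw' : Um w' := by rw [hw'd]; exact um _ _ _ w hw
  have h9 := hPN w' hw'
  obtain ⟨w2, hw2d⟩ : ∃ w2 : Unit ⊕ Fin m → R, w2 = mp cc w' := ⟨_, rfl⟩
  have hw2 : Um w2 := by rw [hw2d]; exact um _ _ _ w' hw'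
  have h10 : REq w2 (row 1 0) := hH4 w2 hw2
  have h11 : REq w' (row 1 0) := by
    refine tr _ _ _ _ h9 ?_
    have h12 := im _ _ CC w2 (row 1 0) h10
    rw [mp_row] at h12
    have h4 : mp CC w2 = fun j => CC (cc (w' j)) := by
      rw [hw2d]; rfl
    rw [h4] at h12
    exact h12
  have h13 : REq w (row 1 0) := by
    refine tr _ _ _ _ h8 ?_
    have h14 := im _ _ (Polynomial.C : C →+* C[X]) w' (row 1 0) h11
    rw [mp_row] at h14
    have h4 : mp (Polynomial.C : C →+* C[X]) w' = fun j => Polynomial.C ((w j).eval 0) := by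
      rw [hw'd]; rfl
    rw [h4] at h14
    exact h14
  have h15 := im _ _ eb w (row 1 0) h13
  rw [mp_row, hvw] at h15
  exact h15

private theorem core2 (hB7 : Pool.Agent.Helper91.GU.StB7.{u}) (m n : ℕ)
    (R : Type u) [CommRing R] (RR : Type u) [CommRing RR] [Algebra R[X] RR]
    [IsLocalization (monS R) RR] (RC : Type u) [CommRing RC]
    [Algebra (MvPolynomial (Fin n) R)[X] RC]
    [IsLocalization (monS (MvPolynomial (Fin n) R)) RC]
    (hPN1 : ∀ v : Unit ⊕ Fin m → MvPolynomial (Fin n) RR, Um v →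
      REq v (fun j => MvPolynomial.C (MvPolynomial.constantCoeff (v j))))
    (hS : ∀ v : Unit ⊕ Fin m → R[X], Um v → REq v (row 1 0))
    (hP7 : ∀ w : Unit ⊕ Fin m → (MvPolynomial (Fin n) R)[X], Um w →
      REq (mp (algebraMap (MvPolynomial (Fin n) R)[X] RC) w) (row 1 0) →
      REq w (fun j => Polynomial.C ((w j).eval 0)))
    (hPN : ∀ w : Unit ⊕ Fin m → MvPolynomial (Fin n) R, Um w →
      REq w (fun j => MvPolynomial.C (MvPolynomial.constantCoeff (w j))))
    (hH4 : ∀ w : Unit ⊕ Fin m → R, Um w → REq w (row 1 0)) :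
    ∀ v : Unit ⊕ Fin m → MvPolynomial (Fin (n + 1)) R, Um v → REq v (row 1 0) := by
  obtain ⟨f2, h21⟩ := ex_phi2 R n RR RC
  exact core hB7 m
    ((MvPolynomial.finSuccEquiv R n).toRingEquiv.toRingHom)
    ((MvPolynomial.finSuccEquiv R n).symm.toRingEquiv.toRingHom)
    (fun x => (MvPolynomial.finSuccEquiv R n).symm_apply_apply x)
    (phi1 R n RR) MvPolynomial.constantCoeff MvPolynomial.C (algebraMap R[X] RR) f2
    (algebraMap (MvPolynomial (Fin n) R)[X] RC)
    (Polynomial.mapRingHom MvPolynomial.constantCoeff)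
    MvPolynomial.constantCoeff MvPolynomial.C h21 (phi1c R n RR) hPN1 hS hP7 hPN hH4

theorem hN2 (hS : Pool.Agent.Helper91.GU.StS.{u}) (hB7 : Pool.Agent.Helper91.GU.StB7.{u})
    (hH4 : Pool.Agent.Helper91.GU.StH4.{u}) (hP7 : StP7.{u}) (hN1 : StN1.{u}) : StN2.{u} := by
  intro s n hs hPN R _ _ _ hdim hfac
  obtain ⟨hnoe, hdimX⟩ := hN1 R (2 * s) hdim
  have hfacX : IsUnit ((s + 1).factorial : RX R) := by
    have := hfac.map ((toRX R).comp (Polynomial.C : R →+* R[X]))
    simpa using this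
  refine core2 hB7 (s + 1) n R (RX R) (RX (MvPolynomial (Fin n) R)) ?_ ?_ ?_ ?_ ?_
  · intro v hv
    exact @hPN (RX R) _ hnoe hdimX hfacX v hv
  · intro v hv
    have := hS R s hs hdim hfac (v (Sum.inl ())) (fun i => v (Sum.inr i))
      (by rw [row_eta]; exact hv)
    rwa [row_eta] at this
  · intro w hw hw1
    exact hP7 _ (s + 1) (by omega) w hw hw1
  · intro w hw
    exact hPN R hdim hfac w hw
  · intro w hw
    have := hH4 R (s + 1) (w (Sum.inl ())) (fun i => w (Sum.inr i))
      (by rw [row_eta]; exact hw)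
    rwa [row_eta] at this

end Pool.Agent.Helper68.FU
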